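import Pool.Agent.Helper964.Chg.As
import Pool.Agent.Helper964.Chg.Half

open Filter Topology MeasureTheory ProbabilityTheory

namespace Pool.Agent.Results.MP_5acba2_pr.SelfAveraging

/-- A step of simple random walk on `Z^d`: a coordinate direction and a sign. -/
abbrev Step (d : ℕ) : Type := Fin d × Bool

/-- The unit vector (with sign) of a step. -/
def stepVec {d : ℕ} (s : Step d) : Fin d → ℤ := Pi.single s.1 (if s.2 then 1 else -1)

/-- Position `S_k` of the walk started at `0` with steps `e 0, e 1, ..., e (n - 1)`. -/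
def walk {d n : ℕ} (e : Fin n → Step d) (k : ℕ) : Fin d → ℤ :=
  ∑ i : Fin n, if (i : ℕ) < k then stepVec (e i) else 0

/-- The interaction `I_n(S) = sum over 0 <= i < j <= n of w_i w_j 1(S_i = S_j)`. -/
noncomputable def interaction {d n : ℕ} (w : ℕ → ℝ) (e : Fin n → Step d) : ℝ :=
  ∑ j ∈ Finset.range (n + 1), ∑ i ∈ Finset.range j,
    if walk e i = walk e j then w i * w j else 0

/-- The partition function `Z_n = E exp(-beta I_n(S))`: all `(2d)^n` step sequences have the
same probability. -/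
noncomputable def partitionFn (d : ℕ) (β : ℝ) (w : ℕ → ℝ) (n : ℕ) : ℝ :=
  (∑ e : Fin n → Step d, Real.exp (-β * interaction w e)) / (2 * (d : ℝ)) ^ n

open Pool.Agent.Helper964.Chg

/-- Extension of a finite step sequence. -/
noncomputable def extS {d : ℕ} [NeZero d] {n : ℕ} (e : Fin n → Step d) : ℕ → Fin d × Bool :=
  fun i => if h : i < n then e ⟨i, h⟩ else default

lemma walk_eq_pos {d : ℕ} [NeZero d] {n : ℕ} (e : Fin n → Step d) {k : ℕ} (hk : k ≤ n) :
    walk e k = pos (extS e) k := by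
  have h1 : walk e k = ∑ i : Fin n, (fun i : ℕ => if i < k then stp (extS e i) else 0) i := by
    unfold walk
    refine Finset.sum_congr rfl fun i _ => ?_
    simp only [extS, i.2, dif_pos]
    rfl
  rw [h1, Fin.sum_univ_eq_sum_range (fun i : ℕ => if i < k then stp (extS e i) else 0) n]
  unfold pos
  rw [← Finset.sum_filter]
  refine Finset.sum_congr ?_ fun _ _ => rfl
  ext i
  simp only [Finset.mem_filter, Finset.mem_range]
  omega

lemma double_sum (c : ℕ → ℝ) (t : ℕ → ℕ → ℝ) (ht : ∀ i j, t i j = t j i) (hd : ∀ i, t i i = 1)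
    (N : ℕ) :
    ∑ i ∈ Finset.range N, ∑ j ∈ Finset.range N, c i * c j * t i j =
      ∑ i ∈ Finset.range N, c i ^ 2 +
        2 * ∑ j ∈ Finset.range N, ∑ i ∈ Finset.range j, c i * c j * t i j := by
  induction N with
  | zero => simp
  | succ N ih =>
    rw [Finset.sum_range_succ]
    simp only [Finset.sum_range_succ (fun j => c _ * c j * t _ j) N]
    rw [Finset.sum_add_distrib, ih, Finset.sum_range_succ (fun i => c i ^ 2),
      Finset.sum_range_succ (fun j => ∑ i ∈ Finset.range j, c i * c j * t i j)]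
    have h2 : ∑ x ∈ Finset.range N, c N * c x * t N x = ∑ x ∈ Finset.range N, c x * c N * t x N :=
      Finset.sum_congr rfl fun x _ => by rw [ht N x]; ring
    rw [h2, hd N]
    ring

lemma interaction_eq {d : ℕ} [NeZero d] {n : ℕ} (w : ℕ → ℝ) (ω : ℕ → Bool)
    (hw : ∀ i, w i = ch (ω i)) (e : Fin n → Step d) :
    -(1 / 2) * ‖qv n (extS e) ω‖ ^ 2 = -((n : ℝ) + 1) / 2 - interaction w e := by
  have h1 : ‖qv n (extS e) ω‖ ^ 2 = ∑ i ∈ Finset.range (n + 1), ∑ j ∈ Finset.range (n + 1),
      ch (ω i) * ch (ω j) * (if pos (extS e) i = pos (extS e) j then (1 : ℝ) else 0) := by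
    unfold qv QQ
    exact norm_sq_sum (n + 1) (fun i => ch (ω i)) (pos (extS e))
  rw [h1, double_sum (fun i => ch (ω i))
    (fun i j => if pos (extS e) i = pos (extS e) j then (1 : ℝ) else 0)
    (fun i j => by simp only [eq_comm]) (fun i => by simp)]
  have h2 : ∑ i ∈ Finset.range (n + 1), ch (ω i) ^ 2 = (n : ℝ) + 1 := by simp [ch_sq]
  rw [h2]
  have h3 : interaction w e = ∑ j ∈ Finset.range (n + 1), ∑ i ∈ Finset.range j,
      ch (ω i) * ch (ω j) * (if pos (extS e) i = pos (extS e) j then (1 : ℝ) else 0) := by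
    unfold interaction
    refine Finset.sum_congr rfl fun j hj => Finset.sum_congr rfl fun i hi => ?_
    have hj' := Finset.mem_range.1 hj
    have hi' := Finset.mem_range.1 hi
    rw [walk_eq_pos e (k := i) (by omega), walk_eq_pos e (k := j) (by omega), hw i, hw j]
    split_ifs <;> simp
  rw [h3]
  ring

lemma partitionFn_eq {d : ℕ} [NeZero d] (β : ℝ) (w : ℕ → ℝ) (ω : ℕ → Bool)
    (hw : ∀ i, w i = ch (ω i)) (n : ℕ) :
    partitionFn d β w n = Real.exp (β * ((n : ℝ) + 1) / 2) * Zt d β n ω := by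
  unfold partitionFn Zt
  rw [Ex_eq_sum, Finset.sum_div, Finset.mul_sum]
  refine Finset.sum_congr rfl fun e _ => ?_
  have h1 := interaction_eq w ω hw e
  have h2 : (fun i => if h : i < n then e ⟨i, h⟩ else default) = extS e := rfl
  rw [h2]
  have h3 : ∏ i, sw d (e i) = 1 / (2 * (d : ℝ)) ^ n := by
    simp only [sw, Finset.prod_const, Finset.card_univ, Fintype.card_fin, one_div, inv_pow]
  rw [h3]
  have h4 : Real.exp (-β * interaction w e) = Real.exp (β * ((n : ℝ) + 1) / 2) *
      Real.exp (-(β / 2) * ‖qv n (extS e) ω‖ ^ 2) := by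
    rw [← Real.exp_add]
    congr 1
    have h5 : -(β / 2) * ‖qv n (extS e) ω‖ ^ 2 = β * (-(1 / 2) * ‖qv n (extS e) ω‖ ^ 2) := by ring
    rw [h5, h1]; ring
  rw [h4]; ring

lemma tendsto_partition {d : ℕ} [NeZero d] {β : ℝ} (w : ℕ → ℝ) (ω : ℕ → Bool)
    (hw : ∀ i, w i = ch (ω i)) {f : ℝ}
    (h : Tendsto (fun n : ℕ => Real.log (Zt d β n ω) / ((n : ℝ) + 1)) atTop (𝓝 f)) :
    Tendsto (fun n : ℕ => Real.log (partitionFn d β w n) / (n : ℝ)) atTop (𝓝 (β / 2 + f)) := by
  have h1 : ∀ n, Real.log (partitionFn d β w n) = ((n : ℝ) + 1) * (β / 2 +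
      Real.log (Zt d β n ω) / ((n : ℝ) + 1)) := by
    intro n
    have h5 : ((n : ℝ) + 1) ≠ 0 := by positivity
    rw [partitionFn_eq β w ω hw n, Real.log_mul (Real.exp_pos _).ne' (Zt_pos β n ω).ne',
      Real.log_exp]
    field_simp
  have h2 : Tendsto (fun n : ℕ => ((n : ℝ) + 1) / (n : ℝ)) atTop (𝓝 1) := by
    have h3 : Tendsto (fun n : ℕ => 1 + 1 / (n : ℝ)) atTop (𝓝 (1 + 0)) :=
      tendsto_const_nhds.add tendsto_one_div_atTop_nhds_zero_nat
    rw [add_zero] at h3
    refine h3.congr' ?_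
    filter_upwards [eventually_gt_atTop 0] with n hn
    have : (n : ℝ) ≠ 0 := by positivity
    field_simp
  have h3 := h2.mul (h.const_add (β / 2))
  rw [one_mul] at h3
  refine h3.congr fun n => ?_
  rw [h1 n]
  ring

universe u

theorem result (d : ℕ) (hd : 1 ≤ d) (β : ℝ) (hβ : 0 < β) (p : ℝ) (hp0 : 0 < p) (hp1 : p < 1) :
    ∃ f : ℝ, ∀ (Ω : Type u) [MeasurableSpace Ω] (P : Measure Ω) [IsProbabilityMeasure P]
      (w : ℕ → Ω → ℝ), (∀ i, Measurable (w i)) → iIndepFun w P →
      (∀ i, P {x | w i x = 1} = ENNReal.ofReal p) →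
      (∀ i, P {x | w i x = -1} = ENNReal.ofReal (1 - p)) →
      ∀ᵐ x ∂P, Tendsto (fun n : ℕ => Real.log (partitionFn d β (fun i => w i x) n) / (n : ℝ))
        atTop (𝓝 f) := by
  have : NeZero d := ⟨by omega⟩
  -- the statement for bits
  have key : ∃ g : ℝ, ∀ (Ω : Type u) [MeasurableSpace Ω] (P : Measure Ω) [IsProbabilityMeasure P]
      (ξ : ℕ → Ω → Bool), (∀ i, Measurable (ξ i)) → iIndepFun ξ P →
      (∀ i, P {x | ξ i x = true} = ENNReal.ofReal p) →
      ∀ᵐ x ∂P, Tendsto (fun n : ℕ => Real.log (Zt d β n (fun i => ξ i x)) / ((n : ℝ) + 1))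
        atTop (𝓝 g) := by
    by_cases hp : p = 1 / 2
    · refine ⟨0, ?_⟩
      intro Ω _ P _ ξ hm hi hpp
      exact Half.half_case hβ P ξ hm hi (by rw [← hp]; exact hpp)
    · obtain ⟨g, hg⟩ := as_conv.{u} (d := d) hβ hp0.le hp1.le hp
      exact ⟨g, fun Ω _ P _ ξ hm hi hpp => hg P ξ hm hi hpp⟩
  obtain ⟨g, hg⟩ := key
  refine ⟨β / 2 + g, ?_⟩
  intro Ω _ P _ w hm hi h1 h2
  classical
  set dec : ℝ → Bool := fun r => decide (r = 1) with hdec
  have hdm : Measurable dec := by
    apply measurable_to_bool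
    have : dec ⁻¹' {true} = {1} := by ext r; simp [hdec]
    rw [this]; exact MeasurableSet.singleton 1
  have hξi : iIndepFun (fun i => dec ∘ w i) P := hi.comp (fun _ => dec) (fun _ => hdm)
  have hξp : ∀ i, P {x | (dec ∘ w i) x = true} = ENNReal.ofReal p := by
    intro i
    have : {x | (dec ∘ w i) x = true} = {x | w i x = 1} := by ext x; simp [hdec]
    rw [this, h1 i]
  have hconv := hg Ω P (fun i => dec ∘ w i) (fun i => hdm.comp (hm i)) hξi hξp
  have hval : ∀ᵐ x ∂P, ∀ i, w i x = 1 ∨ w i x = -1 := by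
    rw [ae_all_iff]
    intro i
    have m1 : MeasurableSet {x | w i x = 1} := hm i (MeasurableSet.singleton 1)
    have m2 : MeasurableSet {x | w i x = -1} := hm i (MeasurableSet.singleton (-1))
    have hdisj : Disjoint {x | w i x = 1} {x | w i x = -1} := by
      rw [Set.disjoint_left]
      intro x hx hx'
      have a : w i x = 1 := hx
      have b : w i x = -1 := hx'
      rw [a] at b; norm_num at b
    have hU : P ({x | w i x = 1} ∪ {x | w i x = -1}) = 1 := by
      rw [measure_union hdisj m2, h1 i, h2 i, ← ENNReal.ofReal_add hp0.le (by linarith)]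
      simp
    have := (prob_compl_eq_zero_iff (m1.union m2)).2 hU
    rw [ae_iff]
    refine measure_mono_null ?_ this
    intro x hx
    simp only [not_or] at hx
    simp only [Set.mem_compl_iff, Set.mem_union, not_or]
    exact hx
  filter_upwards [hconv, hval] with x hx hv
  refine tendsto_partition (fun i => w i x) (fun i => (dec ∘ w i) x) (fun i => ?_) hx
  rcases hv i with h | h
  · simp [hdec, h, ch]
  · have : ¬ ((-1 : ℝ) = 1) := by norm_num
    simp [hdec, h, ch, this]

end Pool.Agent.Results.MP_5acba2_pr.SelfAveraging
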